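import Pool.Agent.VNQ.MainT

/-!
# The two domains of the antipode of a von Neumann algebraic quantum group

`QuantumGroup H K T` (file `Pool.Agent.VNQ.SpecT`): a von Neumann algebraic quantum group
`(M, Δ)`, `M` acting on the Hilbert space `H`, `T = H ⊗ H`, with the GNS construction `(K, Λ, π)` of
the right invariant weight; `S = K ⊗ K` with the elementary tensors `s g g'`. The theorem: the
isometry `V` of the problem exists and is unique, the operator `K` (its graph is `KRel`) is well
defined and densely defined, `𝒟(S) ⊆ 𝒟`, and `𝒟 = 𝒟(S)` if every vector functional of the GNS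
representation is dominated by a finite sum of vector functionals of `H` (which is trivially the
case if `M` acts on the GNS space).
-/

set_option autoImplicit false

open Pool.Agent.VNQ

namespace Pool.Agent.Results.MP_7ccf57_an.AntipodeDomains

universe u

theorem result {H K T S : Type u} [NormedAddCommGroup H] [InnerProductSpace ℂ H] [CompleteSpace H]
    [NormedAddCommGroup K] [InnerProductSpace ℂ K] [CompleteSpace K]
    [NormedAddCommGroup T] [InnerProductSpace ℂ T] [CompleteSpace T]
    [NormedAddCommGroup S] [InnerProductSpace ℂ S] [CompleteSpace S]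
    (Q : QuantumGroup H K T) (s : K → K → S) (hs : IsTensor s) :
    ∃ V : S →L[ℂ] S, Q.IsV s V ∧ (∀ V', Q.IsV s V' → V' = V) ∧
      (∀ ξ ξ₁ ξ₂, Q.KRel s V ξ ξ₁ → Q.KRel s V ξ ξ₂ → ξ₁ = ξ₂) ∧
      Dense {ξ | ∃ ξ₁, Q.KRel s V ξ ξ₁} ∧ Q.DS s V ⊆ Q.D ∧
      (Q.VectorFunctionals → Q.D = Q.DS s V) :=
  Q.main hs

end Pool.Agent.Results.MP_7ccf57_an.AntipodeDomains
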